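import Pool.Agent.U797.NL.Spec

set_option autoImplicit false

namespace Pool.Agent.U333.NL

open Finset
open scoped Classical
open Pool.Agent.U797.LV (nb mem_nb)
open Pool.Agent.U797.NL

lemma sum_bu {V : Type} (I : Finset V) (t : V → Finset V) (w : V → ℝ)
    (hw : ∀ x ∈ I, ∀ v ∈ t x, 0 ≤ w v) :
    ∑ v ∈ I.biUnion t, w v ≤ ∑ x ∈ I, ∑ v ∈ t x, w v := by
  induction I using Finset.induction_on with
  | empty => simp
  | insert a I ha ih =>
    rw [Finset.biUnion_insert, Finset.sum_insert ha]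
    have h1 := Finset.sum_union_inter (s₁ := t a) (s₂ := I.biUnion t) (f := w)
    have h2 : 0 ≤ ∑ v ∈ t a ∩ I.biUnion t, w v :=
      Finset.sum_nonneg fun v hv => hw a (Finset.mem_insert_self _ _) v (Finset.mem_inter.mp hv).1
    have h3 := ih fun x hx v hv => hw x (Finset.mem_insert_of_mem hx) v hv
    linarith

/-- the greedy choice through the classes -/
lemma greedy {V : Type} [Fintype V] (G : SimpleGraph V) (D A : ℝ) (hD : 1 ≤ D) (hA : 1 ≤ A)
    (hdeg : ∀ v, ((nb G v).card : ℝ) ≤ D)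
    (hI : ∀ S : Finset V, ∃ I ⊆ S, Ind G I ∧ (S.card : ℝ) ≤ A * (I.card : ℝ))
    (w : V → ℝ) (e : V → ℤ) (L : ℕ) (hL : 2 * D ≤ 2 ^ L) :
    ∀ (n : ℕ) (S : Finset V), S.card ≤ n →
      (∀ v ∈ S, (2 : ℝ) ^ (e v) < w v ∧ w v ≤ (2 : ℝ) ^ (e v + 1)) →
      (∀ u ∈ S, ∀ v ∈ S, e u < e v → e u + L ≤ e v) →
      ∃ I ⊆ S, Ind G I ∧ ∑ v ∈ S, w v ≤ (2 * A + 1) * ∑ v ∈ I, w v := by
  intro n
  induction n with
  | zero =>
    intro S hS _ _
    have : S = ∅ := Finset.card_eq_zero.mp (Nat.le_zero.mp hS)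
    subst this
    exact ⟨∅, subset_rfl, fun x hx => by simp at hx, by simp⟩
  | succ n ih =>
    intro S hS hw he
    rcases S.eq_empty_or_nonempty with h0 | hne
    · subst h0
      exact ⟨∅, subset_rfl, fun x hx => by simp at hx, by simp⟩
    obtain ⟨v0, hv0, hmax⟩ := S.exists_max_image e hne
    set m := e v0 with hm
    set S0 := S.filter (fun v => e v = m) with hS0
    have hS0S : S0 ⊆ S := Finset.filter_subset _ _
    obtain ⟨I0, hI0S, hI0, hcard⟩ := hI S0
    set N := I0.biUnion (nb G) with hN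
    set S1 := (S \ S0) \ N with hS1
    have hS1S : S1 ⊆ S := fun x hx => (Finset.mem_sdiff.mp (Finset.mem_sdiff.mp hx).1).1
    have hpos : ∀ v ∈ S, 0 < w v := fun v hv => lt_trans (by positivity) (hw v hv).1
    have hS1n : S1.card ≤ n := by
      have : S1.card < S.card := by
        apply Finset.card_lt_card
        refine ⟨hS1S, fun h => ?_⟩
        have h1 := h hv0
        rw [hS1, Finset.mem_sdiff, Finset.mem_sdiff] at h1
        exact h1.1.2 (by rw [hS0, Finset.mem_filter]; exact ⟨hv0, rfl⟩)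
      omega
    obtain ⟨I1, hI1S, hI1, hI1w⟩ := ih S1 hS1n (fun v hv => hw v (hS1S hv))
      (fun u hu v hv => he u (hS1S hu) v (hS1S hv))
    have hdisj : Disjoint I0 I1 := by
      rw [Finset.disjoint_left]
      intro x hx hx1
      have h1 := hI1S hx1
      rw [hS1, Finset.mem_sdiff, Finset.mem_sdiff] at h1
      exact h1.1.2 (hI0S hx)
    refine ⟨I0 ∪ I1, ?_, ?_, ?_⟩
    · exact Finset.union_subset (hI0S.trans hS0S) (hI1S.trans hS1S)
    · have hx : ∀ x ∈ I0, ∀ y ∈ I1, ¬ G.Adj x y := by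
        intro x hx y hy hxy
        have h1 := hI1S hy
        rw [hS1, Finset.mem_sdiff] at h1
        apply h1.2
        rw [hN, Finset.mem_biUnion]
        exact ⟨x, hx, mem_nb.mpr hxy⟩
      intro x hx' y hy'
      rw [Finset.mem_union] at hx' hy'
      rcases hx' with hx' | hx' <;> rcases hy' with hy' | hy'
      · exact hI0 x hx' y hy'
      · exact hx x hx' y hy'
      · exact fun h => hx y hy' x hx' h.symm
      · exact hI1 x hx' y hy'
    · rw [Finset.sum_union hdisj]
      -- weight of `I0`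
      have hI0w : (I0.card : ℝ) * (2 : ℝ) ^ m ≤ ∑ v ∈ I0, w v := by
        rw [← nsmul_eq_mul]
        apply Finset.card_nsmul_le_sum
        intro v hv
        have h1 := hI0S hv
        rw [hS0, Finset.mem_filter] at h1
        have h2 := (hw v h1.1).1
        rw [h1.2] at h2
        exact h2.le
      -- weight of `S0`
      have hS0w : ∑ v ∈ S0, w v ≤ (S0.card : ℝ) * (2 : ℝ) ^ (m + 1) := by
        rw [← nsmul_eq_mul]
        apply Finset.sum_le_card_nsmul
        intro v hv
        rw [hS0, Finset.mem_filter] at hv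
        have h2 := (hw v hv.1).2
        rw [hv.2] at h2
        exact h2
      have h2m : (2 : ℝ) ^ (m + 1) = 2 * (2 : ℝ) ^ m := by
        rw [zpow_add₀ (by norm_num), zpow_one]; ring
      have hpm : (0 : ℝ) < (2 : ℝ) ^ m := by positivity
      have a1 : ∑ v ∈ S0, w v ≤ 2 * A * ∑ v ∈ I0, w v := by
        calc ∑ v ∈ S0, w v ≤ (S0.card : ℝ) * (2 : ℝ) ^ (m + 1) := hS0w
          _ ≤ (A * (I0.card : ℝ)) * (2 : ℝ) ^ (m + 1) := by gcongr
          _ = 2 * A * ((I0.card : ℝ) * (2 : ℝ) ^ m) := by rw [h2m]; ring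
          _ ≤ 2 * A * ∑ v ∈ I0, w v := by gcongr
      -- the removed vertices
      have a2 : ∑ v ∈ (S \ S0) ∩ N, w v ≤ ∑ v ∈ I0, w v := by
        have hsub : (S \ S0) ∩ N ⊆ I0.biUnion (fun x => (S \ S0) ∩ nb G x) := by
          intro y hy
          rw [Finset.mem_inter, hN, Finset.mem_biUnion] at hy
          obtain ⟨hy1, x, hx, hxy⟩ := hy
          rw [Finset.mem_biUnion]
          exact ⟨x, hx, Finset.mem_inter.mpr ⟨hy1, hxy⟩⟩
        have hnn : ∀ v ∈ I0.biUnion (fun x => (S \ S0) ∩ nb G x), 0 ≤ w v := by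
          intro v hv
          rw [Finset.mem_biUnion] at hv
          obtain ⟨x, _, hv⟩ := hv
          exact (hpos v (Finset.mem_sdiff.mp (Finset.mem_inter.mp hv).1).1).le
        calc ∑ v ∈ (S \ S0) ∩ N, w v ≤ ∑ v ∈ I0.biUnion (fun x => (S \ S0) ∩ nb G x), w v :=
              Finset.sum_le_sum_of_subset_of_nonneg hsub (fun v hv _ => hnn v hv)
          _ ≤ ∑ x ∈ I0, ∑ v ∈ (S \ S0) ∩ nb G x, w v := by
              exact sum_bu _ _ _ fun x _ v hv =>
                (hpos v (Finset.mem_sdiff.mp (Finset.mem_inter.mp hv).1).1).le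
          _ ≤ ∑ x ∈ I0, w x := by
              apply Finset.sum_le_sum
              intro x hx
              have h1 := hI0S hx
              rw [hS0, Finset.mem_filter] at h1
              have h2 := (hw x h1.1).1
              rw [h1.2] at h2
              have h3 : ∀ v ∈ (S \ S0) ∩ nb G x, w v ≤ (2 : ℝ) ^ (m + 1 - L) := by
                intro v hv
                rw [Finset.mem_inter, Finset.mem_sdiff, hS0, Finset.mem_filter, not_and] at hv
                have h4 : e v ≤ m := hmax v hv.1.1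
                have h5 : e v ≠ m := hv.1.2 hv.1.1
                have h6 := he v hv.1.1 v0 hv0 (lt_of_le_of_ne h4 h5)
                refine (hw v hv.1.1).2.trans ?_
                apply zpow_le_zpow_right₀ (by norm_num)
                omega
              calc ∑ v ∈ (S \ S0) ∩ nb G x, w v
                  ≤ (((S \ S0) ∩ nb G x).card : ℝ) * (2 : ℝ) ^ (m + 1 - L) := by
                    rw [← nsmul_eq_mul]
                    exact Finset.sum_le_card_nsmul _ _ _ h3
                _ ≤ D * (2 : ℝ) ^ (m + 1 - L) := by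
                    apply mul_le_mul_of_nonneg_right _ (by positivity)
                    refine le_trans ?_ (hdeg x)
                    exact_mod_cast Finset.card_le_card Finset.inter_subset_right
                _ = (2 * D) * ((2 : ℝ) ^ m / 2 ^ L) := by
                    rw [zpow_sub₀ (by norm_num), h2m, zpow_natCast]; ring
                _ ≤ (2 ^ L) * ((2 : ℝ) ^ m / 2 ^ L) := by
                    apply mul_le_mul_of_nonneg_right hL (by positivity)
                _ = (2 : ℝ) ^ m := by field_simp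
                _ ≤ w x := h2.le
      have hsplit : ∑ v ∈ S, w v = ∑ v ∈ S0, w v + (∑ v ∈ (S \ S0) ∩ N, w v + ∑ v ∈ S1, w v) := by
        rw [hS1, Finset.sum_inter_add_sum_sdiff, add_comm, Finset.sum_sdiff hS0S]
      rw [hsplit]
      linarith

theorem t_WEI : Pool.Agent.U797.NL.S_WEI := by
  intro V _ G D A hD hA hdeg hI w hw
  -- the number `L`
  have hlog2 : 0 < Real.log 2 := Real.log_pos (by norm_num)
  have hlog2' : (1 : ℝ) / 2 ≤ Real.log 2 := by
    have := Real.log_two_gt_d9
    linarith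
  have hlogD : 0 ≤ Real.log D := Real.log_nonneg hD
  set L : ℕ := ⌈Real.log (2 * D) / Real.log 2⌉₊ with hLdef
  have h2D : (0 : ℝ) < 2 * D := by linarith
  have hlog2D : Real.log (2 * D) = Real.log 2 + Real.log D :=
    Real.log_mul (by norm_num) (by linarith)
  have hL1 : 2 * D ≤ 2 ^ L := by
    have h1 : Real.log (2 * D) / Real.log 2 ≤ L := Nat.le_ceil _
    rw [div_le_iff₀ hlog2] at h1
    have h2 : Real.log (2 * D) ≤ Real.log ((2 : ℝ) ^ L) := by
      rw [Real.log_pow]; exact h1
    exact (Real.log_le_log_iff h2D (by positivity)).mp h2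
  have hL2 : (L : ℝ) ≤ 2 + 2 * Real.log D := by
    have h0 : 0 ≤ Real.log (2 * D) / Real.log 2 := by
      apply div_nonneg _ hlog2.le
      rw [hlog2D]; linarith
    have h1 : (L : ℝ) < Real.log (2 * D) / Real.log 2 + 1 := Nat.ceil_lt_add_one h0
    have h2 : Real.log (2 * D) / Real.log 2 ≤ 1 + 2 * Real.log D := by
      rw [div_le_iff₀ hlog2, hlog2D]
      nlinarith
    linarith
  have hL0 : 0 < L := by
    rw [hLdef, Nat.ceil_pos]
    apply div_pos _ hlog2
    rw [hlog2D]; linarith
  have hL0' : (0 : ℝ) < L := by exact_mod_cast hL0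
  -- the classes
  have hex : ∀ v : V, ∃ n : ℤ, 0 < w v → (2 : ℝ) ^ n < w v ∧ w v ≤ (2 : ℝ) ^ (n + 1) := by
    intro v
    by_cases h : 0 < w v
    · obtain ⟨n, hn⟩ := exists_mem_Ioc_zpow h (by norm_num : (1 : ℝ) < 2)
      exact ⟨n, fun _ => ⟨hn.1, hn.2⟩⟩
    · exact ⟨0, fun h' => absurd h' h⟩
  choose e he using hex
  set P : Finset V := univ.filter (fun v => 0 < w v) with hP
  have hPw : ∑ v ∈ P, w v = ∑ v, w v := by
    rw [hP]
    apply Finset.sum_filter_of_ne
    intro v _ hv
    exact lt_of_le_of_ne (hw v) (Ne.symm hv)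
  have hLz : (0 : ℤ) < L := by exact_mod_cast hL0
  have hfib : ∑ r ∈ Finset.Ico (0 : ℤ) L, ∑ v ∈ P.filter (fun v => e v % (L : ℤ) = r), w v =
      ∑ v ∈ P, w v := by
    apply Finset.sum_fiberwise_of_maps_to
    intro v _
    rw [Finset.mem_Ico]
    exact ⟨Int.emod_nonneg _ hLz.ne', Int.emod_lt_of_pos _ hLz⟩
  have hcardI : (Finset.Ico (0 : ℤ) L).card = L := by simp
  obtain ⟨r, hr, hrw⟩ : ∃ r ∈ Finset.Ico (0 : ℤ) L, (∑ v, w v) / L ≤
      ∑ v ∈ P.filter (fun v => e v % (L : ℤ) = r), w v := by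
    apply Finset.exists_le_of_sum_le
    · exact ⟨0, by rw [Finset.mem_Ico]; exact ⟨le_rfl, hLz⟩⟩
    · rw [hfib, hPw, Finset.sum_const, hcardI, nsmul_eq_mul]
      rw [mul_div_cancel₀ _ hL0'.ne']
  set S := P.filter (fun v => e v % (L : ℤ) = r) with hS
  obtain ⟨I, hIS, hII, hIw⟩ := greedy G D A hD hA hdeg hI w e L hL1 S.card S le_rfl
    (by
      intro v hv
      rw [hS, Finset.mem_filter, hP, Finset.mem_filter] at hv
      exact he v hv.1.2)
    (by
      intro u hu v hv huv
      rw [hS, Finset.mem_filter] at hu hv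
      have h1 : (L : ℤ) ∣ e v - e u := by
        apply Int.dvd_of_emod_eq_zero
        rw [Int.sub_emod, hv.2, hu.2]
        simp
      have h2 := Int.le_of_dvd (by omega) h1
      omega)
  refine ⟨I, hII, ?_⟩
  have hIw0 : 0 ≤ ∑ v ∈ I, w v := Finset.sum_nonneg fun v _ => hw v
  have h1 : ∑ v, w v ≤ L * ((2 * A + 1) * ∑ v ∈ I, w v) := by
    have := hrw.trans hIw
    rw [div_le_iff₀ hL0'] at this
    linarith
  calc ∑ v, w v ≤ L * ((2 * A + 1) * ∑ v ∈ I, w v) := h1
    _ ≤ (2 + 2 * Real.log D) * ((3 * A) * ∑ v ∈ I, w v) := by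
        apply mul_le_mul hL2 _ (by positivity) (by positivity)
        apply mul_le_mul_of_nonneg_right _ hIw0
        linarith
    _ = 3 * A * (2 + 2 * Real.log D) * ∑ v ∈ I, w v := by ring

end Pool.Agent.U333.NL
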